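import Pool.Agent.Helper18_Helly.Defs
import Pool.Agent.Helper18_Helly.Final

/-!
# The `σ`-Helly number of the aligned sum (MP_65fb70_co, Q1)

`IsValue σ n₁ n₂ n`: there are aligned spaces `(X₁, C₁)`, `(X₂, C₂)`, possibly overlapping, with
`h₁(σ) = n₁`, `h₂(σ) = n₂` whose aligned sum has `h(σ) = n`. For every `σ ≥ 1` and all
`n₁, n₂ ∈ ℕ ∪ {∞}` the theorem gives the largest possible value, and the smallest possible value
except for `σ ≥ 4` and `σ + ⌈2 √σ⌉ < min n₁ n₂ ≤ σ ^ 2`, where the smallest value is at least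
`σ + ⌈2 √σ⌉ - 1`, and at most `2 σ` once `2 σ ≤ min n₁ n₂`.
-/

set_option autoImplicit false

namespace Pool.Agent.Results.MP_65fb70_co.BestBounds

open Pool.Agent.Helper18_Helly

universe u

open Classical in
theorem result (σ : ℕ) (hσ : 1 ≤ σ) (n₁ n₂ : ℕ∞) :
    -- the best upper bound
    IsGreatest {n | IsValue.{u} σ n₁ n₂ n}
      (if 1 ≤ n₁ ∧ 1 ≤ n₂ ∧ ((σ : ℕ∞) ≤ n₁ ∨ (σ : ℕ∞) ≤ n₂) then ⊤ else n₁ + n₂) ∧
    -- the best lower bound if one of the numbers is below `σ`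
    (n₁ < σ ∨ n₂ < σ → IsLeast {n | IsValue.{u} σ n₁ n₂ n} (max n₁ n₂)) ∧
    -- the best lower bound if both numbers are at least `σ`
    ((σ : ℕ∞) ≤ min n₁ n₂ →
      (∀ n, IsValue.{u} σ n₁ n₂ n → min (min n₁ n₂) ((σ + ⌈2 * √(σ : ℝ)⌉₊ - 1 : ℕ) : ℕ∞) ≤ n) ∧
      (min n₁ n₂ ≤ ((σ + ⌈2 * √(σ : ℝ)⌉₊ : ℕ) : ℕ∞) →
        IsLeast {n | IsValue.{u} σ n₁ n₂ n} (min (min n₁ n₂) ((σ + ⌈2 * √(σ : ℝ)⌉₊ - 1 : ℕ) : ℕ∞))) ∧
      (((2 * σ : ℕ) : ℕ∞) ≤ min n₁ n₂ → IsValue.{u} σ n₁ n₂ ((2 * σ : ℕ) : ℕ∞)) ∧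
      (((σ ^ 2 : ℕ) : ℕ∞) < min n₁ n₂ → IsLeast {n | IsValue.{u} σ n₁ n₂ n} ((2 * σ : ℕ) : ℕ∞)) ∧
      (σ ≤ 3 → IsLeast {n | IsValue.{u} σ n₁ n₂ n} (min (min n₁ n₂) ((2 * σ : ℕ) : ℕ∞)))) := by
  have hlow : ∀ n, IsValue.{u} σ n₁ n₂ n →
      min (min n₁ n₂) ((σ + ⌈2 * √(σ : ℝ)⌉₊ - 1 : ℕ) : ℕ∞) ≤ n := by
    rintro n ⟨U, X₁, X₂, C₁, C₂, h₁, h₂, e₁, e₂, e⟩
    rw [← e₁, ← e₂, ← e]
    exact lower_bound h₁ h₂
  refine ⟨?_, ?_, ?_⟩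
  · split_ifs with hc
    · exact ⟨value_top hσ hc.1 hc.2.1 hc.2.2, fun n _ => le_top⟩
    · refine ⟨value_add hσ n₁ n₂, ?_⟩
      rintro n ⟨U, X₁, X₂, C₁, C₂, h₁, h₂, e₁, e₂, e⟩
      rw [← e]
      by_cases hz1 : n₁ = 0
      · rw [sum_eq_of_zero h₁ hσ (e₁.trans hz1), e₂]
        exact le_add_self
      · by_cases hz2 : n₂ = 0
        · rw [helly_sum_comm, sum_eq_of_zero h₂ hσ (e₂.trans hz2), e₁]
          exact le_self_add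
        · have hc' : ¬ ((σ : ℕ∞) ≤ n₁ ∨ (σ : ℕ∞) ≤ n₂) := fun h =>
            hc ⟨ENat.one_le_iff_ne_zero.2 hz1, ENat.one_le_iff_ne_zero.2 hz2, h⟩
          push Not at hc'
          rw [← e₁, ← e₂]
          exact sum_le_add_of_lt h₁ h₂ (e₁ ▸ hc'.1) (e₂ ▸ hc'.2)
  · intro h
    refine ⟨value_max hσ n₁ n₂, ?_⟩
    rintro n ⟨U, X₁, X₂, C₁, C₂, h₁, h₂, e₁, e₂, e⟩
    rcases h with h | h
    · rw [← e₁, ← e₂, ← e]
      exact le_sum_of_lt h₁ h₂ (e₁ ▸ h)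
    · rw [← e₁, ← e₂, ← e, helly_sum_comm, max_comm]
      exact le_sum_of_lt h₂ h₁ (e₂ ▸ h)
  · intro h
    obtain ⟨h1, h2⟩ := le_min_iff.1 h
    refine ⟨hlow, fun h3 => ⟨value_lower hσ h1 h2 h3, fun n hn => hlow n hn⟩, fun h3 => ?_, fun h3 => ?_, fun h3 => ?_⟩
    · obtain ⟨h4, h5⟩ := le_min_iff.1 h3
      exact value_two_mul hσ h4 h5
    · obtain ⟨h4, h5⟩ := lt_min_iff.1 h3
      have h6 : ((2 * σ : ℕ) : ℕ∞) ≤ ((σ ^ 2 + 1 : ℕ) : ℕ∞) := by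
        have : 2 * σ ≤ σ ^ 2 + 1 := by nlinarith [sq_nonneg ((σ : ℤ) - 1)]
        exact_mod_cast this
      have h7 : ∀ n : ℕ∞, ((σ ^ 2 : ℕ) : ℕ∞) < n → ((2 * σ : ℕ) : ℕ∞) ≤ n := by
        intro n hn
        refine h6.trans ?_
        rw [Nat.cast_add, Nat.cast_one]
        exact Order.add_one_le_of_lt hn
      refine ⟨value_two_mul hσ (h7 _ h4) (h7 _ h5), ?_⟩
      rintro n ⟨U, X₁, X₂, C₁, C₂, h₁, h₂, e₁, e₂, e⟩
      rw [← e]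
      exact lower_bound_large h₁ h₂ hσ (e₁ ▸ h4) (e₂ ▸ h5)
    · have h8 : σ + ⌈2 * √(σ : ℝ)⌉₊ - 1 = 2 * σ := by
        have h9 : ⌈2 * √(σ : ℝ)⌉₊ = σ + 1 := by
          rw [Nat.ceil_eq_iff (by omega)]
          have h10 := Real.sq_sqrt (Nat.cast_nonneg (α := ℝ) σ)
          have h11 := Real.sqrt_nonneg (σ : ℝ)
          have h12 : (1 : ℝ) ≤ σ := by exact_mod_cast hσ
          have h13 : (σ : ℝ) ≤ 3 := by exact_mod_cast h3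
          constructor
          · push_cast
            have : (σ : ℝ) < 2 * √(σ : ℝ) := by nlinarith
            simpa using this
          · push_cast
            nlinarith [sq_nonneg (√(σ : ℝ) - 1)]
        omega
      rw [h8] at hlow
      refine ⟨?_, fun n hn => hlow n hn⟩
      rcases le_or_gt (((2 * σ : ℕ) : ℕ∞)) (min n₁ n₂) with h9 | h9
      · obtain ⟨h4, h5⟩ := le_min_iff.1 h9
        rw [min_eq_right h9]
        exact value_two_mul hσ h4 h5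
      · rw [min_eq_left h9.le]
        exact value_min hσ h1 h2 (ne_top_of_lt h9)

end Pool.Agent.Results.MP_65fb70_co.BestBounds
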