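import Pool.Agent.Helper22_SHA.FIN
import Pool.Agent.Helper22_SHA.LOA
import Pool.Agent.Helper28_SHA.SHP
import Pool.Agent.Helper28_SHA.CO1
import Pool.Agent.Helper28_SHA.DES
import Pool.Agent.Helper92_SHA.ANA
import Pool.Agent.Helper90_SHA.BAS
import Pool.Agent.Helper90_SHA.NM1
import Pool.Agent.Helper90_SHA.NM2
import Pool.Agent.Helper90_SHA.PTX
import Pool.Agent.Helper53_SHA.CO2
import Pool.Agent.Helper70_SHA.CONV
import Pool.Agent.Helper30_SHA.GUB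
import Pool.Agent.Helper56_SHA.LPR
import Pool.Agent.Helper56_SHA.LD1
import Pool.Agent.Helper56_SHA.LO1
import Pool.Agent.Helper23_SHA.RND
import Pool.Agent.Helper23_SHA.LD2
import Pool.Agent.Helper15_SHA.LIM
import Pool.Agent.Helper17_SHA.LO2
import Pool.Agent.Helper67_SHA.REM
import Pool.Agent.Helper99_SHA.LOC
import Pool.Agent.Helper22_SHA.TRV
import Pool.Agent.Helper81_SHA.UPB

/-!
# The least `σ`-Helly number of an aligned sum, up to `4 √σ` (MP_65fb70_co, Q1)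

`IsValue s n₁ n₂ n`: there are aligned spaces `(X₁, C₁)`, `(X₂, C₂)`, possibly overlapping, with
`h₁(s) = n₁`, `h₂(s) = n₂` whose aligned sum has `h(s) = n`. For every `s ≥ 1` and all
`n₁, n₂ ∈ ℕ ∪ {∞}`, `n₁, n₂ ≥ s`, there is a least value `v`, and `|v - L| ≤ 4 √s`, where
`L = lead s n₁ n₂ = s (1 + (1 - s/n₁)(1 - s/n₂) / (1 - s²/(n₁ n₂)))`. The order `√s` of the error
cannot be lowered: for `n₁ = n₂ = s + ⌈2 √s⌉` every value is at least `L + √s - 1`.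
-/

set_option autoImplicit false

namespace Pool.Agent.Results.MP_65fb70_co.LeastUpToRoot

open Pool.Agent.Helper18_Helly Pool.Agent.SHA

universe u

theorem ld2 : LD2Stmt.{u} := H23.ld2 H56.lpr H23.rnd H67.rem

theorem lo1 : LO1Stmt.{u} := H56.lo1 (H56.ld1 H56.lpr) H90.ptx

theorem lo2 : LO2Stmt.{u} := H17.lo2 ld2 H90.ptx

theorem loc : LOCStmt.{u} := H99.loc lo1 lo2 H22.trv H90.nm1 H90.nm2 H90.bas

theorem loa : LOAStmt.{u} := H22.loa loc H15.lim H90.bas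

theorem conv : CONStmt.{u} := H70.con H28.co1 H53.co2

theorem upb : UPBStmt.{u} := H81.upb H28.des conv H30.gub H92.ana H90.bas

theorem result (s : ℕ) (hs : 1 ≤ s) :
    (∀ n₁ n₂ : ℕ∞, (s : ℕ∞) ≤ n₁ → (s : ℕ∞) ≤ n₂ →
      ∃ v : ℕ, IsLeast {n | IsValue.{u} s n₁ n₂ n} (v : ℕ∞) ∧
        |(v : ℝ) - lead s n₁ n₂| ≤ 4 * √(s : ℝ)) ∧
    (∀ m : ℕ, m = s + ⌈2 * √(s : ℝ)⌉₊ → ∀ v : ℕ, IsValue.{u} s m m v →
      lead s m m + √(s : ℝ) - 1 ≤ (v : ℝ)) :=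
  H22.fin loa upb H28.shp s hs

end Pool.Agent.Results.MP_65fb70_co.LeastUpToRoot
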