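import Pool.Agent.Helper22_SHA.FINB
import Pool.Agent.Helper22_SHA.LOE
import Pool.Agent.Helper22_SHA.THP
import Pool.Agent.Helper22_SHA.LOA
import Pool.Agent.Helper22_SHA.TRV
import Pool.Agent.Helper17_SHA.ANB
import Pool.Agent.Helper32_SHA.APX
import Pool.Agent.Helper46_SHA.CW2
import Pool.Agent.Helper77_SHA.CWV
import Pool.Agent.Helper39_SHA.DSG
import Pool.Agent.Helper19_SHA.LIC
import Pool.Agent.Helper27_SHA.SID
import Pool.Agent.Helper9_SHA.SYC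
import Pool.Agent.Helper3_SHA.SYH
import Pool.Agent.Helper48_SHA.SYU
import Pool.Agent.Helper15_SHA.UPR
import Pool.Agent.Helper22_SHA.APGX
import Pool.Agent.Helper76_SHA.LOB
import Pool.Agent.Helper28_SHA.CO1
import Pool.Agent.Helper28_SHA.DES
import Pool.Agent.Helper90_SHA.BAS
import Pool.Agent.Helper90_SHA.NM1
import Pool.Agent.Helper90_SHA.NM2
import Pool.Agent.Helper90_SHA.PTX
import Pool.Agent.Helper53_SHA.CO2
import Pool.Agent.Helper70_SHA.CONV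
import Pool.Agent.Helper30_SHA.GUB
import Pool.Agent.Helper56_SHA.LPR
import Pool.Agent.Helper56_SHA.LD1
import Pool.Agent.Helper56_SHA.LO1
import Pool.Agent.Helper23_SHA.RND
import Pool.Agent.Helper23_SHA.LD2
import Pool.Agent.Helper15_SHA.LIM
import Pool.Agent.Helper17_SHA.LO2
import Pool.Agent.Helper67_SHA.REM
import Pool.Agent.Helper99_SHA.LOC

/-!
# The least `σ`-Helly number of an aligned sum in the proportional regime (MP_65fb70_co, Q1)

`IsValue s n₁ n₂ n`: there are aligned spaces `(X₁, C₁)`, `(X₂, C₂)`, possibly overlapping, with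
`h₁(s) = n₁`, `h₂(s) = n₂` whose aligned sum has `h(s) = n`. Let `s ≥ 2`, `n₁, n₂ ∈ ℕ ∪ {∞}`,
`n₁, n₂ > s`, `θ = theta s n₁ n₂`, `L = lead s n₁ n₂ = s (1 + θ)`, and let `v` be the least value.
Then `L - 23 - 10/θ² ≤ v ≤ L + 2 + cost s n₁ + cost s n₂`, where `cost s ∞ = 1` and
`cost s n = x + 1/x + 3 ⌊log₂ s⌋ + 6`, `x = (n - s + 1)/(s - 1)`, for finite `n`. If `a s / n_i` is an
integer `≥ 2` for every finite `n_i`, then `v ≤ L + 2 a`.
-/

set_option autoImplicit false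

namespace Pool.Agent.Results.MP_65fb70_co.LogError

open Pool.Agent.Helper18_Helly Pool.Agent.SHA

universe u

theorem ld2 : LD2Stmt.{u} := H23.ld2 H56.lpr H23.rnd H67.rem

theorem lo1 : LO1Stmt.{u} := H56.lo1 (H56.ld1 H56.lpr) H90.ptx

theorem lo2 : LO2Stmt.{u} := H17.lo2 ld2 H90.ptx

theorem loc : LOCStmt.{u} := H99.loc lo1 lo2 H22.trv H90.nm1 H90.nm2 H90.bas

theorem loa : LOAStmt.{u} := H22.loa loc H15.lim H90.bas

theorem conv : CONStmt.{u} := H70.con H28.co1 H53.co2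

theorem lob : LOBStmt.{u} := H76.lob lo2 H22.trv H90.nm1 H90.nm2 H90.bas

theorem loe : LOEStmt.{u} := H22.loe lob H19.lic loa H22.thp

theorem apx : APXStmt := H32.apx H48.syu H09.syc H3.syh

theorem apg : APGStmt := H22.apg H48.syu H09.syc apx

theorem dsg : DSGStmt := H39.dsg (H56.ld1 H56.lpr)

theorem sid : SIDStmt := H27.sid apg dsg

theorem upl : UPLStmt.{u} := H17.upl sid (H77.cwv H28.co1 H46.cw2) H17.anb H90.bas

theorem upr : UPRStmt.{u} := H15.upr H28.des conv H30.gub H17.anb H90.bas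

theorem result (s : ℕ) (hs : 2 ≤ s) (n₁ n₂ : ℕ∞) (h1 : (s : ℕ∞) < n₁) (h2 : (s : ℕ∞) < n₂) :
    ∃ v : ℕ, IsLeast {n | IsValue.{u} s n₁ n₂ n} (v : ℕ∞) ∧
      lead s n₁ n₂ - 23 - 10 / theta s n₁ n₂ ^ 2 ≤ (v : ℝ) ∧
      (v : ℝ) ≤ lead s n₁ n₂ + 2 + cost s n₁ + cost s n₂ ∧
      ∀ a : ℕ, 1 ≤ a → (∀ M : ℕ, n₁ = M → M < a * s ∧ ∃ c : ℕ, c * M = a * s) →
        (∀ M : ℕ, n₂ = M → M < a * s ∧ ∃ c : ℕ, c * M = a * s) →
        (v : ℝ) ≤ lead s n₁ n₂ + 2 * a :=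
  H22.finB loe upl upr s hs n₁ n₂ h1 h2

end Pool.Agent.Results.MP_65fb70_co.LogError
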